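import Pool.Agent.Helper73.RFn.JSn

/-!
# Project RFn, packet FHM: elementary facts about a frame and a flow
-/

set_option autoImplicit false

open Finset Pool.Agent.Helper47.RFn Pool.Agent.Helper73.RFn

namespace Pool.Agent.Helper75.RFn.FHM

/-! ### Closure rules for smooth families -/

section fam

variable {n : ℕ} {I : Set ℝ}

theorem sc (h8 : Goal_C8) (c : ℝ) : SmFam I (fun _ (_ : EE n) => c) :=
  (h8 n I).1 (fun _ => c) continuousOn_const

theorem sadd (h8 : Goal_C8) {f h : ℝ → EE n → ℝ} (hf : SmFam I f) (hh : SmFam I h) :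
    SmFam I (fun t x => f t x + h t x) := (h8 n I).2.1 f h hf hh

theorem ssub (h8 : Goal_C8) {f h : ℝ → EE n → ℝ} (hf : SmFam I f) (hh : SmFam I h) :
    SmFam I (fun t x => f t x - h t x) := (h8 n I).2.2.1 f h hf hh

theorem smul (h8 : Goal_C8) {f h : ℝ → EE n → ℝ} (hf : SmFam I f) (hh : SmFam I h) :
    SmFam I (fun t x => f t x * h t x) := (h8 n I).2.2.2.1 f h hf hh

theorem sneg (h8 : Goal_C8) {f : ℝ → EE n → ℝ} (hf : SmFam I f) :
    SmFam I (fun t x => - f t x) := (h8 n I).2.2.2.2.1 f hf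

theorem sed (h8 : Goal_C8) {f : ℝ → EE n → ℝ} (i : Fin (n + 1)) (hf : SmFam I f) :
    SmFam I (fun t => ed i (f t)) := (h8 n I).2.2.2.2.2.1 f i hf

theorem ssum (h8 : Goal_C8) {f : Fin (n + 1) → ℝ → EE n → ℝ} (hf : ∀ a, SmFam I (f a)) :
    SmFam I (fun t x => ∑ a, f a t x) :=
  (h8 n I).2.2.2.2.2.2.2.1 (Fin (n + 1)) univ f fun a _ => hf a

theorem snn (h8 : Goal_C8) (i : Fin (n + 1)) : SmFam I (fun _ => (nn i : EE n → ℝ)) :=
  (h8 n I).2.2.2.2.2.2.2.2.1 i

theorem ssm (h8 : Goal_C8) {f : EE n → ℝ} (hf : Sm f) : SmFam I (fun _ => f) :=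
  (h8 n I).2.2.2.2.2.2.2.2.2 f hf

variable {A θ : ℝ → MF n}

theorem s_fdc (h8 : Goal_C8) (hA : ∀ a i, SmFam I (fun t x => A t x a i)) (a : Fin (n + 1))
    {u : ℝ → EE n → ℝ} (hu : SmFam I u) : SmFam I (fun t => Fdc (A t) a (u t)) :=
  ssum h8 fun i => smul h8 (hA a i) (sed h8 i hu)

theorem s_nfc (h8 : Goal_C8) (hA : ∀ a i, SmFam I (fun t x => A t x a i)) (a : Fin (n + 1)) :
    SmFam I (fun t => nfc (A t) a) :=
  ssum h8 fun i => smul h8 (hA a i) (snn h8 i)

theorem s_cc (h8 : Goal_C8) (hA : ∀ a i, SmFam I (fun t x => A t x a i))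
    (hθ : ∀ i a, SmFam I (fun t x => θ t x i a)) (a b c : Fin (n + 1)) :
    SmFam I (fun t => Cc (A t) (θ t) a b c) :=
  sadd h8 (ssum h8 fun j => smul h8 (ssub h8 (s_fdc h8 hA a (hA b j)) (s_fdc h8 hA b (hA a j)))
    (hθ j c)) (ssub h8 (smul h8 (s_nfc h8 hA a) (sc h8 _)) (smul h8 (s_nfc h8 hA b) (sc h8 _)))

theorem s_gamc (h8 : Goal_C8) (hA : ∀ a i, SmFam I (fun t x => A t x a i))
    (hθ : ∀ i a, SmFam I (fun t x => θ t x i a)) (a b c : Fin (n + 1)) :
    SmFam I (fun t => Gamc (A t) (θ t) a b c) :=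
  smul h8 (sc h8 _) (sadd h8 (ssub h8 (s_cc h8 hA hθ a b c) (s_cc h8 hA hθ b c a))
    (s_cc h8 hA hθ c a b))

theorem s_kf (h8 : Goal_C8) (hA : ∀ a i, SmFam I (fun t x => A t x a i))
    (hθ : ∀ i a, SmFam I (fun t x => θ t x i a)) (a b c d : Fin (n + 1)) :
    SmFam I (fun t => Kf (A t) (θ t) a b c d) :=
  ssub h8 (sadd h8 (ssub h8 (s_fdc h8 hA a (s_gamc h8 hA hθ b c d))
    (s_fdc h8 hA b (s_gamc h8 hA hθ a c d)))
    (ssum h8 fun f => ssub h8 (smul h8 (s_gamc h8 hA hθ b c f) (s_gamc h8 hA hθ a f d))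
      (smul h8 (s_gamc h8 hA hθ a c f) (s_gamc h8 hA hθ b f d))))
    (ssum h8 fun f => smul h8 (s_cc h8 hA hθ a b f) (s_gamc h8 hA hθ f c d))

theorem s_rf (h8 : Goal_C8) (hA : ∀ a i, SmFam I (fun t x => A t x a i))
    (hθ : ∀ i a, SmFam I (fun t x => θ t x i a)) (a b c d : Fin (n + 1)) :
    SmFam I (fun t => Rf (A t) (θ t) a b c d) := sneg h8 (s_kf h8 hA hθ a b c d)

theorem s_rcf (h8 : Goal_C8) (hA : ∀ a i, SmFam I (fun t x => A t x a i))
    (hθ : ∀ i a, SmFam I (fun t x => θ t x i a)) (a c : Fin (n + 1)) :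
    SmFam I (fun t => Rcf (A t) (θ t) a c) := ssum h8 fun b => s_rf h8 hA hθ a b c b

theorem s_lamf (h8 : Goal_C8) (hA : ∀ a i, SmFam I (fun t x => A t x a i))
    (hθ : ∀ i a, SmFam I (fun t x => θ t x i a)) : SmFam I (fun t => lamf (A t) (θ t)) :=
  smul h8 (sc h8 _) (ssum h8 fun a => s_rcf h8 hA hθ a a)

theorem s_pff (h8 : Goal_C8) (hA : ∀ a i, SmFam I (fun t x => A t x a i)) (a b : Fin (n + 1)) :
    SmFam I (fun t => Pff (A t) a b) :=
  ssub h8 (sc h8 _) (smul h8 (s_nfc h8 hA a) (s_nfc h8 hA b))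

theorem s_ef (h8 : Goal_C8) (hA : ∀ a i, SmFam I (fun t x => A t x a i))
    (hθ : ∀ i a, SmFam I (fun t x => θ t x i a)) (a b c d : Fin (n + 1)) :
    SmFam I (fun t => Ef (A t) (θ t) a b c d) :=
  ssub h8 (s_rf h8 hA hθ a b c d) (smul h8 (sc h8 _) (smul h8 (s_lamf h8 hA hθ)
    (ssub h8 (smul h8 (s_pff h8 hA a c) (s_pff h8 hA b d))
      (smul h8 (s_pff h8 hA a d) (s_pff h8 hA b c)))))

theorem s_sq (h8 : Goal_C8) {f : ℝ → EE n → ℝ} (hf : SmFam I f) :
    SmFam I (fun t x => f t x ^ 2) := by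
  have h := smul h8 hf hf
  have e : (fun t x => f t x ^ 2) = fun t x => f t x * f t x := by
    funext t x
    ring
  rw [e]
  exact h

theorem s_e2f (h8 : Goal_C8) (hA : ∀ a i, SmFam I (fun t x => A t x a i))
    (hθ : ∀ i a, SmFam I (fun t x => θ t x i a)) : SmFam I (fun t => e2f (A t) (θ t)) :=
  ssum h8 fun a => ssum h8 fun b => ssum h8 fun c => ssum h8 fun d => s_sq h8 (s_ef h8 hA hθ a b c d)

theorem s_ggf (h8 : Goal_C8) (hA : ∀ a i, SmFam I (fun t x => A t x a i))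
    {u v : ℝ → EE n → ℝ} (hu : SmFam I u) (hv : SmFam I v) :
    SmFam I (fun t => ggf (A t) (u t) (v t)) :=
  ssum h8 fun a => smul h8 (s_fdc h8 hA a hu) (s_fdc h8 hA a hv)

theorem s_lapf (h8 : Goal_C8) (hA : ∀ a i, SmFam I (fun t x => A t x a i))
    (hθ : ∀ i a, SmFam I (fun t x => θ t x i a)) {u : ℝ → EE n → ℝ} (hu : SmFam I u) :
    SmFam I (fun t => Lapf (A t) (θ t) (u t)) :=
  ssub h8 (ssum h8 fun a => s_fdc h8 hA a (s_fdc h8 hA a hu))
    (ssum h8 fun a => ssum h8 fun b => smul h8 (s_gamc h8 hA hθ a a b) (s_fdc h8 hA b hu))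

end fam

/-! ### Linear algebra of a frame -/

section alg

variable {n : ℕ} {A θ : MF n}

theorem thA (h : Frm A θ) (x : EE n) : θ x * A x = 1 := mul_eq_one_comm.1 (h.inv x)

theorem gOf_inv (h : Frm A θ) (x : EE n) : (gOf θ x)⁻¹ = (A x).transpose * A x := by
  refine Matrix.inv_eq_left_inv ?_
  change (A x).transpose * A x * (θ x * (θ x).transpose) = 1
  rw [Matrix.mul_assoc, ← Matrix.mul_assoc (A x), h.inv x, Matrix.one_mul,
    ← Matrix.transpose_mul, thA h x, Matrix.transpose_one]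

theorem gOf_apply (θ : MF n) (x : EE n) (i j : Fin (n + 1)) :
    gOf θ x i j = ∑ a, θ x i a * θ x j a := by
  unfold gOf
  rw [Matrix.mul_apply]
  rfl

theorem gOf_rad (h : Frm A θ) (x : EE n) (i : Fin (n + 1)) : ∑ j, gOf θ x i j * x j = x i := by
  have h1 : ∑ j, gOf θ x i j * x j = ∑ a, θ x i a * ∑ j, A x a j * x j := by
    simp only [h.nA x, gOf_apply, Finset.sum_mul, Finset.mul_sum]
    rw [Finset.sum_comm]
    refine Finset.sum_congr rfl fun a _ => Finset.sum_congr rfl fun j _ => ?_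
    ring
  have h2 : ∑ a, θ x i a * ∑ j, A x a j * x j = ∑ j, (θ x * A x) i j * x j := by
    simp only [Matrix.mul_apply, Finset.sum_mul, Finset.mul_sum]
    rw [Finset.sum_comm]
    refine Finset.sum_congr rfl fun a _ => Finset.sum_congr rfl fun j _ => ?_
    ring
  rw [h1, h2, thA h x]
  simp [Matrix.one_apply]

theorem ip_gOf (θ : MF n) (x : EE n) (u v : Fin (n + 1) → ℝ) :
    ip (gOf θ) x u v = ∑ a, (∑ i, θ x i a * u i) * ∑ j, θ x j a * v j := by
  have hR : ∀ a, (∑ i, θ x i a * u i) * (∑ j, θ x j a * v j) =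
      ∑ i, ∑ j, θ x i a * θ x j a * u i * v j := by
    intro a
    rw [Finset.sum_mul_sum]
    refine Finset.sum_congr rfl fun i _ => Finset.sum_congr rfl fun j _ => ?_
    ring
  unfold ip
  simp only [hR, gOf_apply, Finset.sum_mul]
  symm
  rw [Finset.sum_comm]
  refine Finset.sum_congr rfl fun i _ => ?_
  rw [Finset.sum_comm]

theorem th_col (h : Frm A θ) (x : EE n) (a c : Fin (n + 1)) :
    ∑ i, θ x i c * A x a i = if a = c then 1 else 0 := by
  have h1 := congrFun (congrFun (h.inv x) a) c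
  rw [Matrix.mul_apply, Matrix.one_apply] at h1
  rw [← h1]
  exact Finset.sum_congr rfl fun i _ => mul_comm _ _

theorem ip_frame (h : Frm A θ) (x : EE n) (a b : Fin (n + 1)) :
    ip (gOf θ) x (A x a) (A x b) = if a = b then 1 else 0 := by
  rw [ip_gOf]
  simp only [th_col h x]
  simp

theorem ip_self (θ : MF n) (x : EE n) (v : Fin (n + 1) → ℝ) :
    ip (gOf θ) x v v = ∑ a, (∑ i, θ x i a * v i) ^ 2 := by
  rw [ip_gOf]
  exact Finset.sum_congr rfl fun a _ => (sq _).symm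

theorem nfc_eq (h : Frm A θ) (x : EE n) (a : Fin (n + 1)) : nfc A a x = ∑ i, θ x i a * nn i x := by
  unfold nfc nn
  have h1 := congrArg (fun r => r / ‖x‖) (h.nA x a)
  simp only [Finset.sum_div] at h1
  simpa only [mul_div_assoc] using h1

theorem nfc_sq (h : Frm A θ) (x : EE n) (hn : ∑ i, (nn i x : ℝ) ^ 2 = 1) :
    ∑ a, nfc A a x ^ 2 = 1 := by
  have h1 : ∑ a, nfc A a x ^ 2 = ∑ i, ∑ j, (θ x * A x) i j * (nn i x * nn j x) := by
    have h2 : ∀ a, nfc A a x ^ 2 = ∑ i, ∑ j, θ x i a * A x a j * (nn i x * nn j x) := by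
      intro a
      rw [sq]
      nth_rw 1 [nfc_eq h x a]
      unfold nfc
      rw [Finset.sum_mul_sum]
      refine Finset.sum_congr rfl fun i _ => Finset.sum_congr rfl fun j _ => ?_
      ring
    simp only [h2, Matrix.mul_apply, Finset.sum_mul]
    rw [Finset.sum_comm]
    refine Finset.sum_congr rfl fun i _ => ?_
    rw [Finset.sum_comm]
  rw [h1, thA h x, ← hn]
  refine Finset.sum_congr rfl fun i _ => ?_
  simp [Matrix.one_apply, sq]

theorem gOf_posDef (h : Frm A θ) (x : EE n) : (gOf θ x).PosDef := by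
  refine Matrix.PosDef.of_dotProduct_mulVec_pos ?_ ?_
  · ext i j
    rw [Matrix.conjTranspose_apply, gOf_apply, gOf_apply, star_trivial]
    exact Finset.sum_congr rfl fun a _ => mul_comm _ _
  · intro v hv
    have h1 : star v ⬝ᵥ (gOf θ x).mulVec v = ip (gOf θ) x v v := by
      unfold ip
      rw [star_trivial]
      simp only [dotProduct, Matrix.mulVec, Finset.mul_sum]
      refine Finset.sum_congr rfl fun i _ => Finset.sum_congr rfl fun j _ => ?_
      ring
    rw [h1, ip_self]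
    have h2 : ∃ a, (∑ i, θ x i a * v i) ≠ 0 := by
      by_contra hcon
      push Not at hcon
      apply hv
      funext j
      have h3 : ∑ a, A x a j * ∑ i, θ x i a * v i = v j := by
        have h4 : ∑ a, A x a j * ∑ i, θ x i a * v i = ∑ i, (θ x * A x) i j * v i := by
          simp only [Matrix.mul_apply, Finset.sum_mul, Finset.mul_sum]
          rw [Finset.sum_comm]
          refine Finset.sum_congr rfl fun a _ => Finset.sum_congr rfl fun j _ => ?_
          ring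
        rw [h4, thA h x]
        simp [Matrix.one_apply]
      rw [← h3]
      simp [hcon]
    obtain ⟨a, ha⟩ := h2
    exact Finset.sum_pos' (fun b _ => sq_nonneg _) ⟨a, Finset.mem_univ a, by positivity⟩

theorem ggf_eq (h : Frm A θ) (u v : EE n → ℝ) (x : EE n) :
    ggf A u v x = ∑ i, ∑ j, (gOf θ x)⁻¹ i j * ed i u x * ed j v x := by
  rw [gOf_inv h x]
  unfold ggf Fdc
  have h2 : ∀ a, (∑ i, A x a i * ed i u x) * (∑ i, A x a i * ed i v x) =
      ∑ i, ∑ j, A x a i * A x a j * ed i u x * ed j v x := by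
    intro a
    rw [Finset.sum_mul_sum]
    refine Finset.sum_congr rfl fun i _ => Finset.sum_congr rfl fun j _ => ?_
    ring
  simp only [h2, Matrix.mul_apply, Matrix.transpose_apply, Finset.sum_mul]
  rw [Finset.sum_comm]
  refine Finset.sum_congr rfl fun i _ => ?_
  rw [Finset.sum_comm]

end alg

/-! ### The packet -/

theorem fhm (h3 : Goal_C3) (h8 : Goal_C8) : FhmStmt := by
  intro n
  refine ⟨fun A θ h => ?_, fun I A θ h => ?_⟩
  · have hA : ∀ a i, SmFam (Set.univ : Set ℝ) (fun _ x => A x a i) := fun a i =>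
      ssm h8 (h.smA a i)
    have hθ : ∀ i a, SmFam (Set.univ : Set ℝ) (fun _ x => θ x i a) := fun i a =>
      ssm h8 (h.smt i a)
    have hu0 : (0 : ℝ) ∈ (Set.univ : Set ℝ) := Set.mem_univ _
    refine ⟨⟨fun i j => ?_, gOf_posDef h, gOf_rad h⟩, thA h, gOf_inv h, fun a b c d => ?_,
      fun a b => ?_, ?_, fun a b c d => ?_, ?_, fun a => ?_, fun u hu => ⟨?_, fun a => ?_⟩,
      fun u v hu hv => ⟨?_, ggf_eq h u v⟩, fun x hx => nfc_sq h x ((h3 n).2.2.2.1 x hx),
      fun x _ a => nfc_eq h x a, ip_frame h, ip_self θ⟩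
    · have e : (fun x => gOf θ x i j) = fun x => ∑ a, θ x i a * θ x j a := by
        funext x
        exact gOf_apply θ x i j
      rw [e]
      exact (ssum h8 fun a => smul h8 (hθ i a) (hθ j a)).sm 0 hu0
    · exact (s_rf h8 hA hθ a b c d).sm 0 hu0
    · exact (s_rcf h8 hA hθ a b).sm 0 hu0
    · exact (s_lamf h8 hA hθ).sm 0 hu0
    · exact (s_ef h8 hA hθ a b c d).sm 0 hu0
    · exact (s_e2f h8 hA hθ).sm 0 hu0
    · exact (s_nfc h8 hA a).sm 0 hu0
    · exact (s_lapf h8 hA hθ (ssm h8 hu)).sm 0 hu0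
    · exact (s_fdc h8 hA a (ssm h8 hu)).sm 0 hu0
    · exact (s_ggf h8 hA (ssm h8 hu) (ssm h8 hv)).sm 0 hu0
  · have hA : ∀ a i, SmFam I (fun t x => A t x a i) := fun a i => (h.flA a i).fam
    have hθ : ∀ i a, SmFam I (fun t x => θ t x i a) := fun i a => (h.flt i a).fam
    exact ⟨fun t ht => ⟨h.inv t ht, fun a i => (hA a i).sm t ht, fun i a => (hθ i a).sm t ht,
        h.nA t ht⟩, fun a b c d => s_rf h8 hA hθ a b c d, fun a b => s_rcf h8 hA hθ a b,
      s_lamf h8 hA hθ, fun a b c d => s_ef h8 hA hθ a b c d, s_e2f h8 hA hθ,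
      fun a => s_nfc h8 hA a, fun u v hu hv => ⟨s_ggf h8 hA hu hv, s_lapf h8 hA hθ hu⟩⟩

end Pool.Agent.Helper75.RFn.FHM
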